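import Pool.Agent.ATZ.Stmts1
import Pool.Agent.Helper16_AT6.SMH
import Pool.Agent.Helper9_PP.Pbk

/-!
# Squad ATZ, row ONE: the section of `1`
-/

open scoped BigOperators

noncomputable section

namespace Pool.Agent.PP.TB.H11

open Pool.Agent.Helper51_AWC Pool.Agent.Helper79_WRA Pool.Agent.PP Pool.Agent.PP.KF
open Pool.Agent.PP.K9 Pool.Agent.PP.K9.H97 Pool.Agent.PP.H75 Pool.Agent.PP.T3 Pool.Agent.PP.T2
open Pool.Agent.PP.T5

attribute [local instance] Ideal.Quotient.field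

/-- ONE: the section of `1`. -/
theorem one : OneStmt := by
  intro ℓ hℓ M _ hM G _ _ e V Z γ b hZ χ hχ ψ hψ
  classical
  have := Fintype.ofFinite G
  have htop : Cu (1 : G) = ⊤ := by
    rw [eq_top_iff]
    intro x _
    rw [Subgroup.mem_centralizer_singleton_iff]
    simp
  obtain ⟨φ, hφ⟩ : ∃ φ : Cu (1 : G) ≃* G, ∀ t : Cu (1 : G), φ t = (t : G) :=
    ⟨(MulEquiv.subgroupCongr htop).trans Subgroup.topEquiv, fun t => rfl⟩
  have hlb := (hZ.lb 1 Z.one_mem).1
  have hsupp : ∀ x, x ∉ Cu (1 : G) → e x = 0 := by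
    intro x hx
    exact absurd (htop ▸ Subgroup.mem_top x) hx
  have hblk : IsBlk (fun t : Cu (1 : G) => e t) := by
    have h1 := H9.blk_tr φ hZ.blk
    have h2 : (fun x : Cu (1 : G) => e (φ x)) = fun t : Cu (1 : G) => e t := by
      funext x
      rw [hφ]
    rw [h2] at h1
    exact h1
  have he : Bx (Cu (1 : G)) e := ⟨hsupp, hblk⟩
  have hbe : b 1 = e := by
    rcases hlb.bx.dich he with h | h
    · exact h
    · exfalso
      have h1 := hlb.und
      rw [← mulF_res (Cu (1 : G)) (b 1) hsupp] at h1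
      have h2 : mulF e (b 1) = 0 := by
        rw [← hlb.bx.ix.comm he.ix]
        exact h
      rw [h2] at h1
      exact hlb.bx.blk.2.1 h1.symm
  have hgv : ∀ κ ∈ IrrE M e, ∀ s : G, gv M (Cu (1 : G)) (1 * s) (b 1) κ = κ s := by
    intro κ hκ s
    rw [hbe, one_mul, T6.H16.gv_one e hZ.blk.1.1]
    exact (T6.H16.fv_eh e hκ.1 s).1 hκ
  unfold mm rip
  have hcard : Nat.card (Cu (1 : G)) = Nat.card G := Nat.card_congr φ.toEquiv
  rw [hcard]
  congr 1
  refine finsum_congr fun s => ?_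
  rw [hgv χ hχ, hgv ψ hψ]
  have h3 : (s ∈ Cu (1 : G) ∧ Reg ℓ s) = Reg ℓ s := by
    rw [htop]
    simp
  rw [h3]

end Pool.Agent.PP.TB.H11
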