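import Pool.Agent.Helper11_AT5.Asm5
import Pool.Agent.Helper11_ZAS.ONE
import Pool.Agent.Helper17_ATZ.ZCP
import Pool.Agent.Helper3_ATZ.XCH
import Pool.Agent.Helper90_ATZ.NZF
import Pool.Agent.Helper76_ATZ.ZIN
import Pool.Agent.Helper92_ATZ.POZ
import Pool.Agent.Helper45_ATZ.MMO
import Pool.Agent.Helper89_ATZ.PJZ
import Pool.Agent.Helper17_ATZ.IVZ
import Pool.Agent.Helper31_ATZ.AVZ
import Pool.Agent.Helper25_ATZ.NRZ
import Pool.Agent.Helper62_ATZ.HTZ
import Pool.Agent.Helper31_ATZ.GIZ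
import Pool.Agent.Helper65_ATZ.BFZ
import Pool.Agent.Helper13_ATZ.LNZ
import Pool.Agent.Helper82_ATZ.ZAB
import Pool.Agent.Helper77_ATZ.UWA
import Pool.Agent.Helper65_ATZ.CLZ
import Pool.Agent.Helper64_ATZ.IZB
import Pool.Agent.Helper52_ATZ.BND

/-!
# Squad ATZ: the statements, closed

`bnd_ : BndStmt`: the bound for the number of modular characters of a block whose defect group has
a large centre, under the theorem of Broué and Puig for a central subgroup (STAR block).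
-/

noncomputable section

namespace Pool.Agent.PP.TB

open Pool.Agent.PP

theorem zcp_ : ZcpStmt := H17.zcp T5.ix5_
theorem xch_ : XchStmt := H3.xch
theorem one_ : OneStmt := H11.one
theorem nzf_ : NzfStmt := H90.nzf T5.sei_ K9.wbo_ K9.ada_ KF.H25.idm
theorem zin_ : ZinStmt := H76.zin zcp_ T5.inq_ T5.lbx_
theorem poz_ : PozStmt := H92.poz T5.nz5_
theorem mmo_ : MmoStmt := H45.mmo zcp_ T5.co3_ T5.co5_ T5.ker_
theorem pjz_ : PjzStmt := H89.pjz zcp_ mmo_ poz_
theorem ivz_ : IvzStmt := H17.ivz zcp_ T5.ker_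
theorem avz_ : AvzStmt := H31.avz
theorem nrz_ : NrzStmt := H25.nrz
theorem htz_ : HtzStmt := H62.htz zcp_ xch_ zin_ poz_ pjz_ nrz_
theorem giz_ : GizStmt := H31.giz zcp_ zin_
theorem bfz_ : BfzStmt := H65.bfz zcp_ one_ nzf_ pjz_ ivz_ avz_ htz_ giz_
theorem lnz_ : LnzStmt := H13.lnz bfz_ T5.pr5_ T5.fx5_
theorem zab_ : ZabStmt := H82.zab
theorem uwa_ : UwaStmt := H77.uwa
theorem clz_ : ClzStmt := H65.clz uwa_
theorem izb_ : IzbStmt := H64.izb zcp_ T2.pwu_
theorem bnd_ : BndStmt := H52.bnd clz_ izb_ lnz_ uwa_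

end Pool.Agent.PP.TB
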